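import Pool.Agent.helper11.TX.Spec2

/-!
# Project TX (MP_bf63dc_nt), row tx:MG

A lower bound for the mass of a window of vertices (finite set of coefficients with weights).
The lemmas are those of the row MS (helper91).
-/

set_option autoImplicit false

namespace Pool.Agent.helper11.TX

open Finset Pool.Agent.helper85.FC

private lemma MG_cop (α W : ℕ) (x : ℤ) (hα : 0 < α) (hW : 0 < W) :
    (IsCoprime (α : ℤ) x ∧ IsCoprime x (W : ℤ)) ↔ ∀ l ∈ (α * W).primeFactors, ¬ (l : ℤ) ∣ x := by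
  have h0 : α * W ≠ 0 := (Nat.mul_pos hα hW).ne'
  have h1 : (IsCoprime (α : ℤ) x ∧ IsCoprime x (W : ℤ)) ↔ IsCoprime x ((α * W : ℕ) : ℤ) := by
    push_cast
    rw [IsCoprime.mul_right_iff, isCoprime_comm (x := (α : ℤ))]
  rw [h1, Int.isCoprime_iff_gcd_eq_one]
  have h2 : Int.gcd x ((α * W : ℕ) : ℤ) = 1 ↔ Nat.Coprime x.natAbs (α * W) := by
    rw [Int.gcd, Int.natAbs_natCast]
  rw [h2]
  constructor
  · intro h l hl hlx
    rw [Nat.mem_primeFactors] at hl
    have := Nat.Prime.not_coprime_iff_dvd.2 ⟨l, hl.1, Int.natCast_dvd.1 hlx, hl.2.1⟩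
    exact this h
  · intro h
    by_contra hc
    obtain ⟨p, hp, h3, h4⟩ := Nat.Prime.not_coprime_iff_dvd.1 hc
    exact h p (Nat.mem_primeFactors.2 ⟨hp, h4, h0⟩) (Int.natCast_dvd.2 h3)

private lemma MG_prod (W α : ℕ) (hα : 0 < α) (hW : 0 < W) :
    ∏ l ∈ (α * W).primeFactors, (1 - 1 / (l : ℝ)) = PW W * yy W α := by
  unfold PW yy
  rw [← Finset.prod_union]
  · apply Finset.prod_congr _ fun _ _ => rfl
    ext l
    rw [Finset.mem_union, Finset.mem_filter, Nat.primeFactors_mul hα.ne' hW.ne', Finset.mem_union]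
    constructor
    · rintro (h | h)
      · by_cases hl : l ∣ W
        · left
          exact Nat.mem_primeFactors.2 ⟨(Nat.mem_primeFactors.1 h).1, hl, hW.ne'⟩
        · exact Or.inr ⟨h, hl⟩
      · exact Or.inl h
    · rintro (h | h)
      · exact Or.inr h
      · exact Or.inl h.1
  · rw [Finset.disjoint_left]
    intro l h1 h2
    rw [Finset.mem_filter] at h2
    exact h2.2 (Nat.mem_primeFactors.1 h1).2.1

open Classical in
private lemma MG_count (hCR : CR_stmt) (W N α : ℕ) (hα : 0 < α) (hαN : α ≤ N) (hW : 0 < W)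
    (u : ℤ) (M : ℕ) :
    (M : ℝ) * (PW W * yy W α) - N * W ≤ (#((Ioc u (u + M)).filter fun x => Vx W (α, x)) : ℝ) := by
  obtain ⟨P, hP⟩ : ∃ P, P = (α * W).primeFactors := ⟨_, rfl⟩
  have hPp : ∀ l ∈ P, l.Prime := by
    intro l hl
    rw [hP] at hl
    exact (Nat.mem_primeFactors.1 hl).1
  obtain ⟨f, hf⟩ : ∃ f : ℕ → ℤ → ℝ, ∀ l c, f l c = if (l : ℤ) ∣ c then 0 else 1 :=
    ⟨_, fun _ _ => rfl⟩
  have h0 : ∀ l ∈ P, ∀ c, 0 ≤ f l c := by
    intro l _ c
    rw [hf]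
    split_ifs
    · exact le_rfl
    · exact zero_le_one
  have hper : ∀ l ∈ P, ∀ c k : ℤ, f l (c + l * k) = f l c := by
    intro l _ c k
    rw [hf, hf]
    have : (l : ℤ) ∣ c + l * k ↔ (l : ℤ) ∣ c := by
      rw [Int.dvd_add_left (Dvd.intro k rfl)]
    simp only [this]
  have hCR2 := (hCR P f hPp h0 hper u M).2
  -- the local sums
  have hloc : ∀ l ∈ P, ∑ r ∈ range l, f l r = (l : ℝ) - 1 := by
    intro l hl
    have hlp := hPp l hl
    have h1 : ∑ r ∈ range l, f l r = ∑ r ∈ range l, ((1 : ℝ) - if r = 0 then 1 else 0) := by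
      refine Finset.sum_congr rfl fun r hr => ?_
      rw [Finset.mem_range] at hr
      rw [hf]
      by_cases hr0 : r = 0
      · subst hr0
        simp
      · have : ¬ (l : ℤ) ∣ (r : ℤ) := by
          rw [Int.natCast_dvd_natCast]
          intro hd
          exact absurd (Nat.le_of_dvd (Nat.pos_of_ne_zero hr0) hd) (by omega)
        rw [if_neg this, if_neg hr0, sub_zero]
    rw [h1, Finset.sum_sub_distrib, Finset.sum_const, Finset.card_range, nsmul_eq_mul, mul_one,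
      Finset.sum_ite_eq' (range l) 0 (fun _ => (1 : ℝ)), if_pos (Finset.mem_range.2 hlp.pos)]
  have hpr : ∏ l ∈ P, ∑ r ∈ range l, f l r =
      (∏ l ∈ P, (l : ℝ)) * ∏ l ∈ P, (1 - 1 / (l : ℝ)) := by
    rw [← Finset.prod_mul_distrib]
    refine Finset.prod_congr rfl fun l hl => ?_
    rw [hloc l hl]
    have : (l : ℝ) ≠ 0 := by
      exact_mod_cast (hPp l hl).ne_zero
    field_simp
  have hcnt : ∑ c ∈ Ioc u (u + M), ∏ l ∈ P, f l c =
      (#((Ioc u (u + M)).filter fun x => Vx W (α, x)) : ℝ) := by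
    rw [Finset.card_filter, Nat.cast_sum]
    refine Finset.sum_congr rfl fun c _ => ?_
    have hiff : Vx W (α, c) ↔ ∀ l ∈ P, ¬ (l : ℤ) ∣ c := by
      rw [hP, ← MG_cop α W c hα hW]
      unfold Vx
      simp only [hα, true_and]
    by_cases h : Vx W (α, c)
    · rw [if_pos h, Nat.cast_one]
      refine Finset.prod_eq_one fun l hl => ?_
      rw [hf, if_neg (hiff.1 h l hl)]
    · rw [if_neg h, Nat.cast_zero]
      have h2 : ∃ l ∈ P, (l : ℤ) ∣ c := by
        by_contra hc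
        push Not at hc
        exact h (hiff.2 hc)
      obtain ⟨l, hl, hlc⟩ := h2
      refine Finset.prod_eq_zero hl ?_
      rw [hf, if_pos hlc]
  rw [hcnt, hpr] at hCR2
  have hDpos : (0 : ℝ) < ∏ l ∈ P, (l : ℝ) := by
    refine Finset.prod_pos fun l hl => ?_
    exact_mod_cast (hPp l hl).pos
  have hDle : ∏ l ∈ P, (l : ℝ) ≤ (N : ℝ) * W := by
    have h1 : ∏ l ∈ P, l ≤ α * W := by
      rw [hP]
      exact Nat.le_of_dvd (Nat.mul_pos hα hW) (Nat.prod_primeFactors_dvd _)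
    have h2 : ∏ l ∈ P, l ≤ N * W := h1.trans (Nat.mul_le_mul_right W hαN)
    calc ∏ l ∈ P, (l : ℝ) = ((∏ l ∈ P, l : ℕ) : ℝ) := (Nat.cast_prod _ _).symm
      _ ≤ ((N * W : ℕ) : ℝ) := Nat.cast_le.2 h2
      _ = (N : ℝ) * W := Nat.cast_mul _ _
  have hQ : ∏ l ∈ P, (1 - 1 / (l : ℝ)) = PW W * yy W α := by
    rw [hP]
    exact MG_prod W α hα hW
  have hQ0 : 0 ≤ ∏ l ∈ P, (1 - 1 / (l : ℝ)) := by
    refine Finset.prod_nonneg fun l hl => ?_
    have h1 : (1 : ℝ) ≤ l := by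
      exact_mod_cast (hPp l hl).one_lt.le
    have h2 : 1 / (l : ℝ) ≤ 1 := by
      rw [div_le_one (by linarith)]
      exact h1
    linarith
  have hQ1 : ∏ l ∈ P, (1 - 1 / (l : ℝ)) ≤ 1 := by
    refine Finset.prod_le_one (fun l hl => ?_) (fun l hl => ?_)
    · have h1 : (1 : ℝ) ≤ l := by
        exact_mod_cast (hPp l hl).one_lt.le
      have h2 : 1 / (l : ℝ) ≤ 1 := by
        rw [div_le_one (by linarith)]
        exact h1
      linarith
    · have h1 : 0 ≤ 1 / (l : ℝ) := by positivity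
      linarith
  rw [← hQ]
  obtain ⟨D, hD⟩ : ∃ D : ℝ, D = ∏ l ∈ P, (l : ℝ) := ⟨_, rfl⟩
  obtain ⟨q, hq⟩ : ∃ q : ℝ, q = ∏ l ∈ P, (1 - 1 / (l : ℝ)) := ⟨_, rfl⟩
  rw [← hD, ← hq] at hCR2
  rw [← hD] at hDpos hDle
  rw [← hq] at hQ0 hQ1
  rw [← hq]
  have e : ((M : ℝ) / D - 1) * (D * q) = M * q - D * q := by
    field_simp
  rw [e] at hCR2
  have h3 : D * q ≤ N * W := by
    calc D * q ≤ D * 1 := mul_le_mul_of_nonneg_left hQ1 hDpos.le
      _ = D := mul_one D
      _ ≤ N * W := hDle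
  linarith

theorem MG (hCR : CR_stmt) : MG_stmt := by
  classical
  intro W hW S h hS δ hδ
  obtain ⟨N, hN⟩ : ∃ N : ℕ, ∀ s ∈ S, s ≤ N := ⟨S.sup id, fun s hs => Finset.le_sup (f := id) hs⟩
  obtain ⟨H, hH⟩ : ∃ H : ℝ, H = ∑ s ∈ S, h s := ⟨_, rfl⟩
  refine ⟨⌈H * (N * W) / δ⌉₊, fun M hM u => ?_⟩
  have hM1 : H * (N * W) / δ ≤ M := (Nat.le_ceil _).trans (by exact_mod_cast hM)
  have hM2 : H * (N * W) ≤ δ * M := by
    rw [div_le_iff₀ hδ] at hM1
    linarith
  have hsum : ∑ v ∈ XS W S M u, h v.1 = ∑ s ∈ S,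
      h s * (#((Ioc u (u + M)).filter fun x => Vx W (s, x)) : ℝ) := by
    unfold XS
    rw [Finset.sum_filter, Finset.sum_product]
    refine Finset.sum_congr rfl fun s _ => ?_
    rw [Finset.card_filter, Nat.cast_sum, Finset.mul_sum]
    refine Finset.sum_congr rfl fun x _ => ?_
    by_cases hv : Vx W (s, x)
    · rw [if_pos hv, if_pos hv, Nat.cast_one, mul_one]
    · rw [if_neg hv, if_neg hv, Nat.cast_zero, mul_zero]
  rw [hsum]
  have hterm : ∀ s ∈ S, h s * ((M : ℝ) * (PW W * yy W s) - N * W) ≤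
      h s * (#((Ioc u (u + M)).filter fun x => Vx W (s, x)) : ℝ) := fun s hs =>
    mul_le_mul_of_nonneg_left (MG_count hCR W N s (hS s hs).1 (hN s hs) hW u M) (hS s hs).2
  refine le_trans ?_ (Finset.sum_le_sum hterm)
  have e : ∑ s ∈ S, h s * ((M : ℝ) * (PW W * yy W s) - N * W) =
      M * (PW W * ∑ s ∈ S, h s * yy W s) - H * (N * W) := by
    rw [hH, Finset.sum_mul, Finset.mul_sum, Finset.mul_sum, ← Finset.sum_sub_distrib]
    refine Finset.sum_congr rfl fun s _ => ?_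
    ring
  rw [e]
  linarith

end Pool.Agent.helper11.TX
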